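import Mathlib
import Pool.Agent.H31.Ach

set_option autoImplicit false

namespace Pool.Agent.Results.MP_51e3e3_an.Full

open Filter Topology

/-- The terms `v_n = ((-1)^n / n, (-1)^n / √n)` in the Euclidean plane (used for `n ≥ 1`). -/
noncomputable def v (n : ℕ) : EuclideanSpace ℝ (Fin 2) :=
  !₂[(-1 : ℝ) ^ n / (n : ℝ), (-1 : ℝ) ^ n / √(n : ℝ)]

/-- The achievement set of `(w_n)_{n ≥ 1}`: the sums of all convergent series
`∑_{n ≥ 1} ε_n w_n` with `ε_n ∈ {0,1}`, the terms taken in their original order. -/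
def achievementSet (w : ℕ → EuclideanSpace ℝ (Fin 2)) : Set (EuclideanSpace ℝ (Fin 2)) :=
  {p | ∃ ε : ℕ → ℝ, (∀ n, ε n = 0 ∨ ε n = 1) ∧
    Tendsto (fun N => ∑ n ∈ Finset.Icc 1 N, ε n • w n) atTop (𝓝 p)}

lemma sum_shift (f : ℕ → ℝ) (N : ℕ) :
    ∑ n ∈ Finset.Icc 1 N, f n = ∑ k ∈ Finset.range N, f (k + 1) := by
  induction N with
  | zero => simp
  | succ N ih => rw [Finset.sum_Icc_succ_top (by omega), Finset.sum_range_succ, ih]

theorem result : achievementSet v = Set.univ := by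
  refine Set.eq_univ_of_forall (fun p => ?_)
  obtain ⟨ε, h01, hx, hy⟩ := Pool.Agent.H31.Ach.main (p 0) (p 1)
  refine ⟨fun n => ε (n - 1), fun n => h01 _, ?_⟩
  have hc : Continuous (fun q : ℝ × ℝ => (!₂[q.1, q.2] : EuclideanSpace ℝ (Fin 2))) := by
    fun_prop
  have h1 := (hc.tendsto (p 0, p 1)).comp (hx.prodMk_nhds hy)
  have e1 : (!₂[p 0, p 1] : EuclideanSpace ℝ (Fin 2)) = p := by
    ext i; fin_cases i <;> simp
  simp only [e1] at h1
  refine h1.congr (fun N => ?_)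
  ext i
  fin_cases i
  · simp [v, sum_shift]
  · simp [v, sum_shift]

end Pool.Agent.Results.MP_51e3e3_an.Full
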